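import Pool.Agent.Helper19.HO.Defs
import Mathlib.Data.Fin.Tuple.Sort
import Mathlib.Logic.Equiv.Fin.Basic

/-!
HO-1: parity of alternating facets.
-/

namespace Pool.Agent.Helper19.HO

private theorem ho1_altP_comp {k : ℕ} (l : Fin k → ℤ) (σ : Equiv.Perm (Fin k)) :
    altP (l ∘ σ) = altP l := by
  classical
  unfold altP
  rw [← Equiv.sum_comp (Equiv.mulLeft σ)
    (fun s : Equiv.Perm (Fin k) => if IsAlt (l ∘ s) then (1 : ZMod 2) else 0)]
  rfl

private theorem ho1_strict {k : ℕ} {l : Fin k → ℤ} (hl : ∀ i j, l i ≠ -l j)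
    (hm : Monotone (fun i => |l i|)) :
    IsAlt l ↔ ∀ i : Fin k, 0 < (-1) ^ (i : ℕ) * l i := by
  refine ⟨fun h => h.2, fun h => ⟨?_, h⟩⟩
  cases k with
  | zero => intro i; exact i.elim0
  | succ k =>
    rw [Fin.strictMono_iff_lt_succ]
    intro i
    refine lt_of_le_of_ne (hm (Fin.castSucc_lt_succ (i := i)).le) ?_
    intro heq
    have h1 := h i.castSucc
    have h2 := h i.succ
    simp only [Fin.val_castSucc, Fin.val_succ, pow_succ] at h1 h2
    rcases abs_eq_abs.1 heq with h3 | h3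
    · rw [h3] at h1
      nlinarith
    · exact hl _ _ h3

open Classical in
private theorem ho1_altP_mono {k : ℕ} {l : Fin k → ℤ} (hl : ∀ i j, l i ≠ -l j)
    (hm : Monotone (fun i => |l i|)) :
    altP l = if ∀ i : Fin k, 0 < (-1) ^ (i : ℕ) * l i then 1 else 0 := by
  classical
  unfold altP
  rw [Finset.sum_eq_single (1 : Equiv.Perm (Fin k))]
  · have h1 : (l ∘ ((1 : Equiv.Perm (Fin k)) : Fin k → Fin k)) = l := rfl
    rw [h1]
    by_cases h : IsAlt l
    · rw [if_pos h, if_pos ((ho1_strict hl hm).1 h)]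
    · rw [if_neg h, if_neg (fun h' => h ((ho1_strict hl hm).2 h'))]
  · intro s _ hs
    rw [if_neg]
    intro h
    apply hs
    have hinj : Function.Injective (fun i => |l i|) := by
      intro i j hij
      have h2 : (fun i => |(l ∘ s) i|) (s.symm i) = (fun i => |(l ∘ s) i|) (s.symm j) := by
        simpa using hij
      have := h.1.injective h2
      exact s.symm.injective this
    have h3 : (fun i => |l i|) ∘ s = (fun i => |l i|) ∘ (1 : Equiv.Perm (Fin k)) :=
      Tuple.unique_monotone (f := fun i => |l i|) h.1.monotone hm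
    ext i
    have h4 := hinj (congrFun h3 i)
    rw [h4]
  · intro h
    exact absurd (Finset.mem_univ _) h

open Classical in
private theorem ho1_comb {n : ℕ} (P : ℕ → Prop) :
    ∑ i : Fin (n + 1), (if (∀ m < (i : ℕ), P m) ∧ ∀ m, (i : ℕ) < m → m < n + 1 → ¬ P m
      then (1 : ZMod 2) else 0) =
      (if ∀ m < n + 1, P m then 1 else 0) + (if ∀ m < n + 1, ¬ P m then 1 else 0) := by
  classical
  let A : ℕ → ZMod 2 := fun i =>
    if (∀ m < i, P m) ∧ ∀ m, i ≤ m → m < n + 1 → ¬ P m then 1 else 0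
  have h1 : ∀ i : Fin (n + 1), (if (∀ m < (i : ℕ), P m) ∧ ∀ m, (i : ℕ) < m → m < n + 1 → ¬ P m
      then (1 : ZMod 2) else 0) = A ((i : ℕ) + 1) - A (i : ℕ) := by
    intro i
    have hneg : ∀ x : ZMod 2, -x = x := by decide
    by_cases hP : P (i : ℕ)
    · have hA : A (i : ℕ) = 0 := by
        change (if _ then (1 : ZMod 2) else 0) = 0
        rw [if_neg]
        rintro ⟨_, h⟩
        exact h i le_rfl i.2 hP
      have hB : A ((i : ℕ) + 1) = (if (∀ m < (i : ℕ), P m) ∧
          ∀ m, (i : ℕ) < m → m < n + 1 → ¬ P m then (1 : ZMod 2) else 0) := by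
        change (if _ then (1 : ZMod 2) else 0) = _
        refine if_congr ?_ rfl rfl
        constructor
        · rintro ⟨h, h'⟩
          exact ⟨fun m hm => h m (by omega), fun m hm hm' => h' m (by omega) hm'⟩
        · rintro ⟨h, h'⟩
          refine ⟨fun m hm => ?_, fun m hm hm' => h' m (by omega) hm'⟩
          rcases Nat.lt_succ_iff_lt_or_eq.1 hm with h2 | h2
          · exact h m h2
          · rw [h2]; exact hP
      rw [hA, hB, sub_zero]
    · have hA : A ((i : ℕ) + 1) = 0 := by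
        change (if _ then (1 : ZMod 2) else 0) = 0
        rw [if_neg]
        rintro ⟨h, _⟩
        exact hP (h i (by omega))
      have hB : A (i : ℕ) = (if (∀ m < (i : ℕ), P m) ∧
          ∀ m, (i : ℕ) < m → m < n + 1 → ¬ P m then (1 : ZMod 2) else 0) := by
        change (if _ then (1 : ZMod 2) else 0) = _
        refine if_congr ?_ rfl rfl
        constructor
        · rintro ⟨h, h'⟩
          exact ⟨h, fun m hm hm' => h' m (by omega) hm'⟩
        · rintro ⟨h, h'⟩
          refine ⟨h, fun m hm hm' => ?_⟩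
          rcases Nat.lt_or_eq_of_le hm with h2 | h2
          · exact h' m h2 hm'
          · rw [← h2]; exact hP
      rw [hA, hB, zero_sub, hneg]
  rw [Finset.sum_congr rfl (fun i _ => h1 i),
    Fin.sum_univ_eq_sum_range (fun i => A (i + 1) - A i) (n + 1), Finset.sum_range_sub]
  have h2 : A (n + 1) = if ∀ m < n + 1, P m then 1 else 0 := by
    change (if _ then (1 : ZMod 2) else 0) = _
    refine if_congr ?_ rfl rfl
    exact ⟨fun h => h.1, fun h => ⟨h, fun m hm hm' => absurd hm' (by omega)⟩⟩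
  have h3 : A 0 = if ∀ m < n + 1, ¬ P m then 1 else 0 := by
    change (if _ then (1 : ZMod 2) else 0) = _
    refine if_congr ?_ rfl rfl
    exact ⟨fun h m hm => h.2 m (Nat.zero_le _) hm,
      fun h => ⟨fun m hm => absurd hm (Nat.not_lt_zero _), fun m _ hm' => h m hm'⟩⟩
  rw [h2, h3, sub_eq_add_neg]
  have hneg : ∀ x : ZMod 2, -x = x := by decide
  rw [hneg]

private theorem ho1_sorted {k : ℕ} (l : Fin (k + 2) → ℤ) (hl : ∀ i j, l i ≠ -l j)
    (hm : Monotone (fun i => |l i|)) :
    ∑ i : Fin (k + 2), altP (l ∘ i.succAbove) = altP l + altP (-l) := by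
  classical
  let P : ℕ → Prop := fun m => ∃ h : m < k + 2, 0 < (-1) ^ m * l ⟨m, h⟩
  have hP : ∀ i : Fin (k + 2), P (i : ℕ) ↔ 0 < (-1) ^ (i : ℕ) * l i := by
    intro i
    exact ⟨fun ⟨_, h⟩ => h, fun h => ⟨i.2, h⟩⟩
  have h0 : ∀ i, l i ≠ 0 := by
    intro i h
    have := hl i i
    rw [h] at this
    simp at this
  have hnP : ∀ (i : Fin (k + 2)), ¬ P (i : ℕ) ↔ 0 < -((-1) ^ (i : ℕ) * l i) := by
    intro i
    rw [hP]
    have h1 : (-1 : ℤ) ^ (i : ℕ) * l i ≠ 0 :=
      mul_ne_zero (pow_ne_zero _ (by norm_num)) (h0 i)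
    omega
  have e1 : altP l = if ∀ m < k + 2, P m then 1 else 0 := by
    rw [ho1_altP_mono hl hm]
    refine if_congr ?_ rfl rfl
    exact ⟨fun h m hm => (hP ⟨m, hm⟩).2 (h ⟨m, hm⟩), fun h i => (hP i).1 (h i i.2)⟩
  have e2 : altP (-l) = if ∀ m < k + 2, ¬ P m then 1 else 0 := by
    have hl' : ∀ i j, (-l) i ≠ -(-l) j := by
      intro i j h
      simp only [Pi.neg_apply, neg_neg] at h
      exact hl j i h.symm
    have hm' : Monotone (fun i => |(-l) i|) := by
      simpa [abs_neg] using hm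
    rw [ho1_altP_mono hl' hm']
    refine if_congr ?_ rfl rfl
    constructor
    · intro h m hm
      rw [hnP ⟨m, hm⟩]
      have := h ⟨m, hm⟩
      simpa using this
    · intro h i
      have := (hnP i).1 (h i i.2)
      simpa using this
  have e3 : ∀ i : Fin (k + 2), altP (l ∘ i.succAbove) =
      if (∀ m < (i : ℕ), P m) ∧ ∀ m, (i : ℕ) < m → m < k + 1 + 1 → ¬ P m then 1 else 0 := by
    intro i
    have hl' : ∀ a b, (l ∘ i.succAbove) a ≠ -(l ∘ i.succAbove) b := fun a b => hl _ _
    have hm' : Monotone (fun a => |(l ∘ i.succAbove) a|) :=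
      hm.comp (Fin.strictMono_succAbove i).monotone
    rw [ho1_altP_mono hl' hm']
    refine if_congr ?_ rfl rfl
    have key : ∀ a : Fin (k + 1), (0 < (-1) ^ (a : ℕ) * (l ∘ i.succAbove) a ↔
        (((a : ℕ) < (i : ℕ) ∧ P (a : ℕ)) ∨ ((i : ℕ) ≤ (a : ℕ) ∧ ¬ P ((a : ℕ) + 1)))) := by
      intro a
      rcases lt_or_ge (a : ℕ) (i : ℕ) with h | h
      · have h1 : i.succAbove a = a.castSucc :=
          Fin.succAbove_of_castSucc_lt _ _ (by rw [Fin.lt_def]; simpa using h)
        have h2 := hP a.castSucc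
        simp only [Fin.val_castSucc] at h2
        rw [Function.comp_apply, h1, ← h2]
        constructor
        · intro h3; exact Or.inl ⟨h, h3⟩
        · rintro (⟨_, h3⟩ | ⟨h3, _⟩)
          · exact h3
          · omega
      · have h1 : i.succAbove a = a.succ :=
          Fin.succAbove_of_le_castSucc _ _ (by rw [Fin.le_def]; simpa using h)
        have h2 := hnP a.succ
        simp only [Fin.val_succ] at h2
        have h4 : (-1 : ℤ) ^ (a : ℕ) * l a.succ = -((-1) ^ ((a : ℕ) + 1) * l a.succ) := by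
          rw [pow_succ]; ring
        rw [Function.comp_apply, h1, h4, ← h2]
        constructor
        · intro h3; exact Or.inr ⟨h, h3⟩
        · rintro (⟨h3, _⟩ | ⟨_, h3⟩)
          · omega
          · exact h3
    constructor
    · intro h
      refine ⟨fun m hm => ?_, fun m hm hm' => ?_⟩
      · have hi := i.2
        rcases (key ⟨m, by omega⟩).1 (h ⟨m, by omega⟩) with ⟨_, h1⟩ | ⟨h1, _⟩
        · exact h1
        · exact absurd h1 (by simp only; omega)
      · obtain ⟨m', rfl⟩ : ∃ m', m = m' + 1 := ⟨m - 1, by omega⟩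
        rcases (key ⟨m', by omega⟩).1 (h ⟨m', by omega⟩) with ⟨h1, _⟩ | ⟨_, h1⟩
        · exact absurd h1 (by simp only; omega)
        · exact h1
    · rintro ⟨h1, h2⟩ a
      rw [key a]
      rcases lt_or_ge (a : ℕ) (i : ℕ) with h | h
      · exact Or.inl ⟨h, h1 _ h⟩
      · exact Or.inr ⟨h, h2 _ (by omega) (by omega)⟩
  rw [e1, e2, Finset.sum_congr rfl (fun i _ => e3 i)]
  have h5 := ho1_comb (n := k + 1) P
  have h6 : ∀ (p : Prop) (i1 i2 : Decidable p), (@ite (ZMod 2) p i1 1 0) = @ite (ZMod 2) p i2 1 0 := by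
    intro p i1 i2
    congr
  refine Eq.trans ?_ (h5.trans ?_)
  · exact Finset.sum_congr rfl (fun i _ => h6 _ _ _)
  · exact congrArg₂ (· + ·) (h6 _ _ _) (h6 _ _ _)

theorem altP_parity {k : ℕ} (l : Fin (k + 2) → ℤ) (hl : ∀ i j, l i ≠ -l j) :
    ∑ i : Fin (k + 2), altP (l ∘ i.succAbove) = altP l + altP (-l) := by
  classical
  let σ : Equiv.Perm (Fin (k + 2)) := Tuple.sort (fun i => |l i|)
  have hm : Monotone (fun i => |(l ∘ σ) i|) := Tuple.monotone_sort (fun i => |l i|)
  have h1 := ho1_sorted (l ∘ σ) (fun i j => hl _ _) hm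
  have h2 : -(l ∘ σ) = (-l) ∘ σ := rfl
  rw [h2, ho1_altP_comp, ho1_altP_comp] at h1
  rw [← h1, ← Equiv.sum_comp σ (fun i => altP (l ∘ i.succAbove))]
  refine Finset.sum_congr rfl (fun i _ => ?_)
  let τ : Equiv.Perm (Fin (k + 1)) :=
    ((finSuccAboveEquiv i).trans
      (σ.subtypeEquiv (p := fun x => x ≠ i) (q := fun x => x ≠ σ i)
        (fun x => by simp))).trans (finSuccAboveEquiv (σ i)).symm
  have hτ : ∀ a, (σ i).succAbove (τ a) = σ (i.succAbove a) := by
    intro a
    have := congrArg Subtype.val ((finSuccAboveEquiv (σ i)).apply_symm_apply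
      ((σ.subtypeEquiv (p := fun x => x ≠ i) (q := fun x => x ≠ σ i)
        (fun x => by simp)) (finSuccAboveEquiv i a)))
    rw [finSuccAboveEquiv_apply, finSuccAboveEquiv_apply] at this
    exact this
  have h3 : (l ∘ σ) ∘ i.succAbove = (l ∘ (σ i).succAbove) ∘ τ := by
    funext a
    simp only [Function.comp_apply]
    rw [hτ]
  rw [h3, ho1_altP_comp]

end Pool.Agent.Helper19.HO
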